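import Pool.Agent.H13.Two

namespace Pool.Agent.Results.MP_558aee_co.C5
open Finset Matrix Pool.Agent.H13.Two

def G : SimpleGraph (Fin 5 × Fin 2) where
  Adj v w := v ≠ w ∧ v.1 ≠ w.1 + 2 ∧ w.1 ≠ v.1 + 2
  symm := ⟨by decide⟩
  loopless := ⟨by decide⟩

instance : DecidableRel G.Adj := fun v w =>
  inferInstanceAs (Decidable (v ≠ w ∧ v.1 ≠ w.1 + 2 ∧ w.1 ≠ v.1 + 2))

def B : Matrix (Fin 5 × Fin 2) (Fin 5 × Fin 2) ℤ := fun v w =>
  if v.1 = w.1 then if v.2 = w.2 then 0 else 3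
  else if w.1 = v.1 + 1 then 2 - 4 * w.2 else if v.1 = w.1 + 1 then 2 - 4 * v.2 else 0

def U : Matrix (Fin 3) (Fin 5 × Fin 2) ℤ := fun a v =>
  ![![1, 1, 0, 0, 1], ![0, -1, 1, 0, 1], ![0, 0, 1, 1, -1]] a v.1

theorem key {p' q' p q r s d e f d' e' : ℝ} (h1 : p' * p + q' * r = 0) (h2 : p' * q + q' * s = 0)
    (h3 : e * p + f * r + (r * d' + s * e') = 0) (h4 : p' ≠ 0) (h5 : p ≠ 0) (h6 : r ≠ 0) :
    d + f = d + e * q' / p' - (d' + e' * q / p) := by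
  grind

theorem tr0 {M : Matrix (Fin 5 × Fin 2) (Fin 5 × Fin 2) ℝ} {c : ℝ} (h : InS G M)
    (h' : M * M = c • 1) : M.trace = 0 := by
  have z : ∀ v w, ¬G.Adj v w ∧ v ≠ w → M v w = 0 := fun v w e => by
    simpa [e.1] using h.2 v w e.2
  have n : ∀ v w, G.Adj v w → M v w ≠ 0 := fun v w e => (h.2 v w e.ne).2 e
  have e : ∀ v w, v ≠ w → ∑ a, ∑ b, M v (a, b) * M (a, b) w = 0 := fun v w e => by
    simpa [mul_apply, e, Fintype.sum_prod_type] using congrFun₂ h' v w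
  have t : ∀ i : Fin 5, M (i, 0) (i, 0) + M (i, 1) (i, 1) =
      M (i, 0) (i, 0) + M (i, 1) (i, 0) * M (i - 1, 0) (i, 1) / M (i - 1, 0) (i, 0) -
      (M (i + 1, 0) (i + 1, 0) + M (i + 1, 1) (i + 1, 0) * M (i, 0) (i + 1, 1) /
        M (i, 0) (i + 1, 0)) := fun i => by
    have h1 := e (i - 1, 0) (i + 1, 0) (by fin_cases i <;> decide)
    have h2 := e (i - 1, 0) (i + 1, 1) (by fin_cases i <;> decide)
    have h3 := e (i, 1) (i + 1, 0) (by fin_cases i <;> decide)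
    refine key (r := M (i, 1) (i + 1, 0)) (s := M (i, 1) (i + 1, 1)) ?_ ?_ ?_
      (n _ _ (by fin_cases i <;> decide)) (n _ _ (by fin_cases i <;> decide)) (n _ _ (by fin_cases i <;> decide))
    all_goals
      fin_cases i <;>
      simp (disch := decide) only [Fin.sum_univ_five, Fin.sum_univ_two, z, Fin.reduceFinMk,
        Fin.reduceAdd, Fin.reduceSub, Fin.zero_eta, Fin.mk_one, Fin.isValue] at h1 h2 h3 ⊢ <;>
      linarith
  have t0 := t 0
  have t1 := t 1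
  have t2 := t 2
  have t3 := t 3
  have t4 := t 4
  simp only [trace, Matrix.diag, Fintype.sum_prod_type, Fin.sum_univ_five, Fin.sum_univ_two,
    Fin.reduceAdd, Fin.reduceSub] at t0 t1 t2 t3 t4 ⊢
  linarith

theorem result : ∃ (V : Type) (_ : Fintype V) (_ : DecidableEq V) (G : SimpleGraph V),
    G.Connected ∧ q G = 2 ∧ mrp G ≤ 3 ∧ MB G = 5 := by
  have a := cast (G := G) (B := B) (c := 25) (by decide +kernel)
  have b : Ach G 5 := to_ach a.1 (c := 5) (by norm_num) (by rw [a.2]; norm_num)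
    (by rw [tr0 a.1 a.2]; norm_num)
  have u : ∀ i j, i ≠ j → ((Uᵀ * U) i j ≠ 0 ↔ G.Adj i j) := by decide +kernel
  have m : 5 ∈ {k | 1 ≤ k ∧ k ≤ Fintype.card (Fin 5 × Fin 2) / 2 ∧ Ach G k} :=
    ⟨by norm_num, by simp, b⟩
  have r : ((U.map ((↑) : ℤ → ℝ))ᴴ * U.map ((↑) : ℤ → ℝ)).rank ∈
      {r | ∃ A, InS G A ∧ A.PosSemidef ∧ A.rank = r} := by
    refine ⟨_, ⟨?_, fun i j h => ?_⟩, posSemidef_conjTranspose_mul_self _, rfl⟩
    · simp [IsSymm]
    · rw [← u i j h, ← Int.cast_ne_zero (α := ℝ)]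
      simp [mul_apply]
  refine ⟨_, inferInstance, inferInstance, G, by decide +kernel,
    q_two a.1 a.2 (a := (0, 0)) (b := (0, 1)) (by decide), (Nat.sInf_le r).trans
      ((rank_mul_le_right ..).trans (by simpa using rank_le_card_height (U.map ((↑) : ℤ → ℝ)))),
    le_antisymm (Nat.sInf_le m) (le_csInf ⟨_, m⟩ fun k hk => ?_)⟩
  · obtain ⟨M, c, h1, h2, h3⟩ := of_ach hk.2.2 (hk.2.1.trans (Nat.div_le_self ..))
    have := h3.1 (tr0 h1 h2)
    simp at this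
    omega

end Pool.Agent.Results.MP_558aee_co.C5
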